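import Pool.Agent.LRY.Stmts

/-!
# Row IRQ of the squad LRY: `G - 1` is irreducible
-/

set_option autoImplicit false

open Polynomial

namespace Pool.Agent.LRY.H24

open Pool.Agent.LRY Pool.Agent.LRG.E

theorem irq : IrqStmt := by
  intro hFcq hSpq r₁ r₂ N a c hP hN hr
  have hN2 : (2 : ℝ) ≤ N := by exact_mod_cast hN
  have hN2' : (2 : ℤ) ≤ N := by exact_mod_cast hN
  have hc4 : ∀ j, (4 : ℤ) ≤ c j := fun j => by
    have := hP.clo j
    nlinarith
  obtain ⟨-, hmon, -, hG⟩ := hFcq r₁ r₂ a c (fun j => by linarith [hc4 j])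
  obtain ⟨s1, -, -⟩ := hSpq r₁ r₂ N a c hP
  have hcard : Fintype.card (Ro r₁ r₂) = r₁ + 2 * r₂ := by
    simp [Fintype.card_sum, Fintype.card_prod, mul_comm]
  refine Pool.Agent.Helper65_Dens.irreducible_of_pairs hmon (wr a c) hG (by rw [hcard]; omega) ?_ ?_
  · intro o o' h
    by_contra hne
    have h1 := s1 o o' hne
    rw [h, sub_self, norm_zero] at h1
    linarith
  · intro u v o huv
    rcases o with i | ⟨j, b⟩
    · -- an integer
      have hw : wr a c (Sum.inl i : Ro r₁ r₂) = ((Int.castRingHom ℂ) (a (Sum.inl i)) : ℂ) := rfl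
      have hev : ∀ q : ℤ[X], (q.map (Int.castRingHom ℂ)).eval
          ((Int.castRingHom ℂ) (a (Sum.inl i))) = ((q.eval (a (Sum.inl i)) : ℤ) : ℂ) := by
        intro q
        rw [eval_map, eval₂_at_apply]
        rfl
      simp only [hw, hev] at huv ⊢
      have h1 : u.eval (a (Sum.inl i)) * v.eval (a (Sum.inl i)) = -1 := by exact_mod_cast huv
      rcases Int.eq_one_or_neg_one_of_mul_eq_neg_one' h1 with ⟨h2, h3⟩ | ⟨h2, h3⟩ <;>
        rw [h2, h3] <;> simp
    · obtain ⟨e, he, hw⟩ : ∃ e : ℝ, e ^ 2 = 1 ∧ wr a c (Sum.inr (j, b) : Ro r₁ r₂) =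
          (((a (Sum.inr j) : ℝ)) : ℂ) + ((e * Real.sqrt (c j : ℝ) : ℝ) : ℂ) * Complex.I := by
        rcases b with _ | _
        · exact ⟨-1, by norm_num, by simp [wr]⟩
        · exact ⟨1, by norm_num, by simp [wr]⟩
      have hcR : (0 : ℝ) ≤ (c j : ℝ) := by
        have := hc4 j
        have h2 : (0 : ℤ) ≤ c j := by linarith
        exact_mod_cast h2
      have hsq : Real.sqrt (c j : ℝ) ^ 2 = (c j : ℝ) := Real.sq_sqrt hcR
      have him2 : (e * Real.sqrt (c j : ℝ)) ^ 2 = (c j : ℝ) := by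
        rw [mul_pow, he, hsq, one_mul]
      have hre : (wr a c (Sum.inr (j, b) : Ro r₁ r₂)).re = (a (Sum.inr j) : ℝ) := by
        rw [hw, Complex.add_re, Complex.ofReal_re, Complex.re_ofReal_mul, Complex.I_re, mul_zero,
          add_zero]
      have him : (wr a c (Sum.inr (j, b) : Ro r₁ r₂)).im = e * Real.sqrt (c j : ℝ) := by
        rw [hw, Complex.add_im, Complex.ofReal_im, Complex.im_ofReal_mul, Complex.I_im, mul_one,
          zero_add]
      refine Pool.Agent.Helper65_Dens.quadratic_unit u v (-(2 * a (Sum.inr j)))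
        (a (Sum.inr j) ^ 2 + c j) ?_ _ ?_ ?_ ?_ huv
      · have := hc4 j
        nlinarith
      · rw [hre]
        push_cast
        ring
      · rw [him, him2]
        push_cast
        ring
      · have h5 : ((e * Real.sqrt (c j : ℝ) : ℝ) : ℂ) ^ 2 = ((c j : ℝ) : ℂ) := by
          rw [← Complex.ofReal_pow, him2]
        rw [hw]
        generalize ((e * Real.sqrt (c j : ℝ) : ℝ) : ℂ) = y at h5
        have h6 : ((c j : ℝ) : ℂ) = ((c j : ℤ) : ℂ) := by push_cast; rfl
        rw [h6] at h5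
        push_cast
        linear_combination -h5 + y ^ 2 * Complex.I_sq

end Pool.Agent.LRY.H24
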